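import Pool.Agent.H95.ESL.Stmts

/-!
Row FOU of the board `esl`: with full 2-torsion the number of points is divisible by 4.
-/

set_option autoImplicit false

namespace ESL
open Finset ESP

namespace FOU

theorem even_card {α : Type} (s : Finset α) (g : α → α) (h1 : ∀ a ∈ s, g a ∈ s)
    (h2 : ∀ a ∈ s, g a ≠ a) (h3 : ∀ a ∈ s, g (g a) = a) : 2 ∣ s.card := by
  have h : ∑ _x ∈ s, (1 : ZMod 2) = 0 :=
    Finset.sum_involution (fun a _ => g a) (fun _ _ => by decide) (fun a ha _ => h2 a ha)
      (fun a ha => h1 a ha) (fun a ha => h3 a ha)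
  rw [Finset.sum_const, nsmul_eq_mul, mul_one] at h
  exact (ZMod.natCast_eq_zero_iff _ _).1 h

variable {p : ℕ} [Fact p.Prime]

theorem card_sq (hp : 5 ≤ p) (t : ZMod p) [Decidable (t = 0)] [Decidable (t ≠ 0 ∧ IsSquare t)] :
    Nat.card {y : ZMod p // y ^ 2 = t} =
      (if t = 0 then 1 else 0) + (if t ≠ 0 ∧ IsSquare t then 2 else 0) := by
  have h2 : (2 : ZMod p) ≠ 0 := by
    intro h
    have : ((2 : ℕ) : ZMod p) = 0 := by exact_mod_cast h
    rw [ZMod.natCast_eq_zero_iff] at this
    have := Nat.le_of_dvd (by norm_num) this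
    omega
  by_cases h0 : t = 0
  · subst h0
    simp only [ne_eq, not_true_eq_false, false_and, if_false, if_true, add_zero]
    rw [Nat.card_eq_one_iff_unique]
    refine ⟨⟨fun a b => ?_⟩, ⟨⟨0, by ring⟩⟩⟩
    have ha := pow_eq_zero_iff (two_ne_zero) |>.1 a.2
    have hb := pow_eq_zero_iff (two_ne_zero) |>.1 b.2
    exact Subtype.ext (ha.trans hb.symm)
  · by_cases hs : IsSquare t
    · rw [if_neg h0, if_pos ⟨h0, hs⟩, zero_add]
      obtain ⟨r, hr⟩ := hs
      have hr0 : r ≠ 0 := by
        rintro rfl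
        exact h0 (by simpa using hr)
      rw [Nat.card_eq_two_iff]
      refine ⟨⟨r, by rw [hr]; ring⟩, ⟨-r, by rw [hr]; ring⟩, ?_, ?_⟩
      · intro h
        have h' : r = -r := congrArg Subtype.val h
        have : 2 * r = 0 := by linear_combination h'
        rcases mul_eq_zero.1 this with h | h
        · exact h2 h
        · exact hr0 h
      · ext y
        simp only [Set.mem_insert_iff, Set.mem_singleton_iff, Set.mem_univ, iff_true]
        have hy := y.2
        have : (y.1 - r) * (y.1 + r) = 0 := by linear_combination hy + hr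
        rcases mul_eq_zero.1 this with h | h
        · exact Or.inl (Subtype.ext (by linear_combination h))
        · exact Or.inr (Subtype.ext (by linear_combination h))
    · rw [if_neg h0, if_neg (fun h => hs h.2)]
      rw [add_zero, Nat.card_eq_zero]
      left
      exact ⟨fun y => hs ⟨y.1, by have h := y.2; rw [sq] at h; exact h.symm⟩⟩

end FOU

open Classical in
theorem fou_thm : S_FOU := by
  intro p _ hp e₁ e₂ e₃ h12 h13 h23
  have h2 : (2 : ZMod p) ≠ 0 := by
    intro h
    have : ((2 : ℕ) : ZMod p) = 0 := by exact_mod_cast h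
    rw [ZMod.natCast_eq_zero_iff] at this
    have := Nat.le_of_dvd (by norm_num) this
    omega
  set f : ZMod p → ZMod p := fun x => (x - e₁) * (x - e₂) * (x - e₃) with hf
  have hcard : Nat.card {v : ZMod p × ZMod p // v.2 ^ 2 = f v.1} =
      ∑ x : ZMod p, ((if f x = 0 then 1 else 0) + (if f x ≠ 0 ∧ IsSquare (f x) then 2 else 0)) := by
    rw [Nat.card_congr (Equiv.subtypeProdEquivSigmaSubtype (fun x y : ZMod p => y ^ 2 = f x)),
      Nat.card_sigma]
    exact Finset.sum_congr rfl fun x _ => FOU.card_sq hp (f x)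
  have hz : (Finset.univ.filter fun x : ZMod p => f x = 0) = {e₁, e₂, e₃} := by
    ext x
    simp only [hf, Finset.mem_filter, Finset.mem_univ, true_and, mul_eq_zero, sub_eq_zero,
      Finset.mem_insert, Finset.mem_singleton]
    tauto
  have hz3 : (Finset.univ.filter fun x : ZMod p => f x = 0).card = 3 := by
    rw [hz]
    exact Finset.card_eq_three.2 ⟨e₁, e₂, e₃, h12, h13, h23, rfl⟩
  set X := Finset.univ.filter fun x : ZMod p => f x ≠ 0 ∧ IsSquare (f x) with hX
  have htot : Nat.card {v : ZMod p × ZMod p // v.2 ^ 2 = f v.1} = 3 + X.card * 2 := by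
    rw [hcard, Finset.sum_add_distrib, ← Finset.sum_filter, ← Finset.sum_filter,
      Finset.sum_const, Finset.sum_const, hz3]
    simp [hX]
  have hne : ∀ x ∈ X, x - e₁ ≠ 0 ∧ x - e₂ ≠ 0 ∧ x - e₃ ≠ 0 := by
    intro x hx
    have h := (Finset.mem_filter.1 hx).2.1
    exact ⟨left_ne_zero_of_mul (left_ne_zero_of_mul h), right_ne_zero_of_mul (left_ne_zero_of_mul h),
      right_ne_zero_of_mul h⟩
  have hu : e₁ - e₂ ≠ 0 := sub_ne_zero.2 h12
  have hv : e₁ - e₃ ≠ 0 := sub_ne_zero.2 h13
  set g : ZMod p → ZMod p := fun x => e₁ + (e₁ - e₂) * (e₁ - e₃) / (x - e₁) with hg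
  have hgX : ∀ x ∈ X, g x ∈ X := by
    intro x hx
    obtain ⟨n1, n2, n3⟩ := hne x hx
    obtain ⟨-, m1, r, m2⟩ := Finset.mem_filter.1 hx
    have key : f (g x) = f x * ((e₁ - e₂) * (e₁ - e₃) / (x - e₁) ^ 2) ^ 2 := by
      simp only [hf, hg]
      field_simp
      ring
    refine Finset.mem_filter.2 ⟨Finset.mem_univ _, ?_, ?_⟩
    · rw [key]
      exact mul_ne_zero m1 (pow_ne_zero _ (div_ne_zero (mul_ne_zero hu hv) (pow_ne_zero _ n1)))
    · rw [key, m2]
      exact ⟨r * ((e₁ - e₂) * (e₁ - e₃) / (x - e₁) ^ 2), by ring⟩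
  have hgg : ∀ x ∈ X, g (g x) = x := by
    intro x hx
    obtain ⟨n1, n2, n3⟩ := hne x hx
    simp only [hg]
    field_simp
    ring
  have hfix : ∀ x ∈ X, (g x = x ↔ (x - e₁) ^ 2 = (e₁ - e₂) * (e₁ - e₃)) := by
    intro x hx
    obtain ⟨n1, n2, n3⟩ := hne x hx
    simp only [hg]
    constructor
    · intro h
      have h' : (e₁ - e₂) * (e₁ - e₃) / (x - e₁) = x - e₁ := by linear_combination h
      rw [div_eq_iff n1] at h'
      rw [h']
      ring
    · intro h
      rw [← h]
      field_simp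
      ring
  have even1 : 2 ∣ (X.filter fun x => g x ≠ x).card := by
    refine FOU.even_card _ g ?_ ?_ ?_
    · intro x hx
      obtain ⟨a, b⟩ := Finset.mem_filter.1 hx
      refine Finset.mem_filter.2 ⟨hgX x a, ?_⟩
      rw [hgg x a]
      exact fun h => b h.symm
    · intro x hx
      exact (Finset.mem_filter.1 hx).2
    · intro x hx
      exact hgg x (Finset.mem_filter.1 hx).1
  have even2 : 2 ∣ (X.filter fun x => ¬ g x ≠ x).card := by
    refine FOU.even_card _ (fun x => 2 * e₁ - x) ?_ ?_ ?_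
    · intro x hx
      obtain ⟨a, b⟩ := Finset.mem_filter.1 hx
      rw [not_not, hfix x a] at b
      obtain ⟨n1, n2, n3⟩ := hne x a
      obtain ⟨-, m1, r, m2⟩ := Finset.mem_filter.1 a
      have r0 : r ≠ 0 := by
        rintro rfl
        exact m1 (by simpa using m2)
      have key : f (2 * e₁ - x) * f x = ((x - e₁) ^ 2 * (e₂ - e₃)) ^ 2 := by
        simp only [hf]
        linear_combination (-(x - e₁) ^ 2 * ((x - e₁) ^ 2 - (e₁ - e₂) * (e₁ - e₃))) * b
      have key2 : f (2 * e₁ - x) = ((x - e₁) ^ 2 * (e₂ - e₃) / r) ^ 2 := by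
        rw [m2] at key
        field_simp
        linear_combination key
      have memX : 2 * e₁ - x ∈ X := by
        refine Finset.mem_filter.2 ⟨Finset.mem_univ _, ?_, ?_⟩
        · rw [key2]
          exact pow_ne_zero _ (div_ne_zero (mul_ne_zero (pow_ne_zero _ n1) (sub_ne_zero.2 h23)) r0)
        · rw [key2]
          exact ⟨(x - e₁) ^ 2 * (e₂ - e₃) / r, by ring⟩
      refine Finset.mem_filter.2 ⟨memX, ?_⟩
      rw [not_not, hfix _ memX]
      linear_combination b
    · intro x hx h
      obtain ⟨a, b⟩ := Finset.mem_filter.1 hx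
      obtain ⟨n1, n2, n3⟩ := hne x a
      have : 2 * (x - e₁) = 0 := by linear_combination -h
      rcases mul_eq_zero.1 this with h | h
      · exact h2 h
      · exact n1 h
    · intro x hx
      ring
  have heven : 2 ∣ X.card := by
    rw [← Finset.card_filter_add_card_filter_not (s := X) (fun x => g x ≠ x)]
    exact dvd_add even1 even2
  have : Nat.card {v : ZMod p × ZMod p // v.2 ^ 2 = f v.1} + 1 = 4 + X.card * 2 := by
    rw [htot]
    ring
  show 4 ∣ Nat.card {v : ZMod p × ZMod p // v.2 ^ 2 = f v.1} + 1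
  rw [this]
  obtain ⟨c, hc⟩ := heven
  rw [hc]
  exact ⟨1 + c, by ring⟩

theorem FOU_thm : S_FOU := fou_thm

end ESL
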